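import Pool.Agent.T9h34.QE.Spec
import Pool.Agent.T9h46.QC.Params

/-!
# The choice of the parameters, sharp at every density
(Variant of `Pool.Agent.T9h46.QL.ParamsL` of helper46.)
-/

set_option autoImplicit false

namespace Pool.Agent.T9h65.QE

open Finset
open Pool.Agent.T9h34.Q
open Pool.Agent.T9h34.QE
open Pool.Agent.T9h46.QC (eventually_log)

lemma wgtE_le {μ x : ℝ} (hμ : 1 ≤ μ) (hx : 0 ≤ x) {j d : ℕ} (hj : 1 ≤ j) (hjd : j ≤ d) :
    wgtE μ x j ≤ (4 * d * μ ^ d * x) ^ j := by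
  unfold wgtE
  rw [mul_pow (4 * (d : ℝ) * μ ^ d), mul_pow (4 * (d : ℝ)), ← pow_mul]
  have hjd' : (j : ℝ) ≤ d := by exact_mod_cast hjd
  have h2 : j * (j + 1) / 2 ≤ d * j := by
    refine Nat.div_le_of_le_mul ?_
    have h3 : j + 1 ≤ 2 * d := by omega
    calc j * (j + 1) ≤ j * (2 * d) := Nat.mul_le_mul_left _ h3
      _ = 2 * (d * j) := by ring
  have h4 : μ ^ (j * (j + 1) / 2) ≤ μ ^ (d * j) := pow_le_pow_right₀ hμ h2
  gcongr

theorem stParamsE : StParamsE := by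
  intro δ hδ hδ2
  obtain ⟨n₀, hn₀⟩ := eventually_log δ hδ
  refine ⟨n₀, fun n k f s D ν hn hk1 hkn hD hs hf hν0 hfs hfd hkD => ?_⟩
  obtain ⟨h1, hL1, hL2, hL8⟩ := hn₀ n hn
  have hN1 : (1 : ℝ) ≤ n := by exact_mod_cast h1
  set N : ℝ := (n : ℝ) with hN
  have hN0 : 0 < N := by linarith
  set L : ℝ := Real.log N with hL
  have hL0 : 0 < L := by linarith
  have hL1000 : 1000 ≤ L := by
    have h2 : δ * L ≤ 1 * L := by gcongr
    linarith
  have hN1001 : 1001 ≤ N := by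
    have := Real.log_le_sub_one_of_pos hN0
    linarith
  have hD1 : (1 : ℝ) ≤ D := by exact_mod_cast hD
  have hk1' : (1 : ℝ) ≤ k := by exact_mod_cast hk1
  obtain ⟨K, hK⟩ : ∃ K : ℝ, K = (k : ℝ) * D := ⟨_, rfl⟩
  have hkK : (k : ℝ) ≤ K := by
    rw [hK]
    calc (k : ℝ) = k * 1 := (mul_one _).symm
      _ ≤ k * D := by gcongr
  have hK1 : 1 ≤ K := hk1'.trans hkK
  rw [← hK] at hkD ⊢
  obtain ⟨μ, hμ⟩ : ∃ μ : ℝ, μ = 1 + ν := ⟨_, rfl⟩
  rw [← hμ] at hfs ⊢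
  have hμ1 : 1 ≤ μ := by linarith
  obtain ⟨r, hr⟩ : ∃ r : ℝ, r = √ν := ⟨_, rfl⟩
  have hr0 : 0 ≤ r := by rw [hr]; exact Real.sqrt_nonneg _
  have hr2 : r ^ 2 = ν := by rw [hr]; exact Real.sq_sqrt hν0
  rw [← hr] at hkD ⊢
  refine ⟨by omega, ?_⟩
  have hs0 : (0 : ℝ) < s := by
    have : (n : ℝ) ≤ s := by exact_mod_cast hs
    linarith
  have hls : L ≤ Real.log s := Real.log_le_log hN0 (by rw [hN]; exact_mod_cast hs)
  have hls0 : 0 < Real.log s := by linarith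
  obtain ⟨c, hc⟩ : ∃ c : ℕ, c = ⌈2 * (Real.log s + 4 * L) / (δ / 5 * L)⌉₊ + 2 := ⟨_, rfl⟩
  obtain ⟨m, hm⟩ : ∃ m : ℕ, m = ⌊k * N ^ (δ / 5)⌋₊ + 1 := ⟨_, rfl⟩
  obtain ⟨d, hd⟩ : ∃ d : ℕ, d = f * c := ⟨_, rfl⟩
  obtain ⟨q, hq⟩ : ∃ q : ℕ, q = (d ^ 2 + 1) * (d + 1) := ⟨_, rfl⟩
  obtain ⟨B, hB⟩ : ∃ B : ℕ, B = q * (D + 2 * Nat.log 2 n + 3) := ⟨_, rfl⟩
  have hu0 : 0 ≤ 2 * (Real.log s + 4 * L) / (δ / 5 * L) := by positivity
  have hδL : 0 < δ * L := by positivity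
  have hc1 : (c : ℝ) ≤ 65 * Real.log s / (δ * L) := by
    rw [hc]
    have h2 := (Nat.ceil_lt_add_one hu0).le
    have h3 : 2 * (Real.log s + 4 * L) / (δ / 5 * L) ≤ 50 * Real.log s / (δ * L) := by
      rw [div_le_div_iff₀ (by positivity) (by positivity)]
      have h4 : δ * L * L ≤ δ * L * Real.log s := by gcongr
      linear_combination 8 * h4
    have h4 : 3 ≤ 15 * Real.log s / (δ * L) := by
      rw [le_div_iff₀ hδL]
      have h5 : δ * L ≤ 1 * L := by gcongr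
      linarith
    have h5 : 65 * Real.log s / (δ * L) = 50 * Real.log s / (δ * L) + 15 * Real.log s / (δ * L) := by
      ring
    push_cast
    linarith
  have hc2 : 2 * (Real.log s + 4 * L) / (δ / 5 * L) + 2 ≤ c := by
    rw [hc]
    have := Nat.le_ceil (2 * (Real.log s + 4 * L) / (δ / 5 * L))
    push_cast
    linarith
  have hc3 : 2 ≤ c := by omega
  have hcd : c ≤ d := by rw [hd]; exact Nat.le_mul_of_pos_left _ (by omega)
  have hf2 : (2 : ℝ) ≤ f := by exact_mod_cast hf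
  have hd0 : (d : ℝ) ≤ 65 * (f * Real.log s) / (δ * L) := by
    rw [hd]
    push_cast
    calc (f : ℝ) * c ≤ f * (65 * Real.log s / (δ * L)) := by gcongr
      _ = _ := by ring
  have hdW : (d : ℝ) ≤ N ^ (δ / 100) := by
    refine hd0.trans (le_trans ?_ hfd)
    rw [div_le_iff₀ hδL]
    have h2 : 0 ≤ (f : ℝ) * Real.log s := by positivity
    have h3 : (f : ℝ) * Real.log s * 65 ≤ f * Real.log s * (δ * L) :=
      mul_le_mul_of_nonneg_left (by linarith) h2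
    linarith
  have hd1 : (1 : ℝ) ≤ d := by exact_mod_cast (by omega : 1 ≤ d)
  have hμ0 : 0 < μ := by linarith
  have hlμ : 0 ≤ Real.log μ := Real.log_nonneg hμ1
  have hdμ : (d : ℝ) * Real.log μ ≤ 65 / 10000 * δ * L := by
    calc (d : ℝ) * Real.log μ ≤ 65 * (f * Real.log s) / (δ * L) * Real.log μ := by gcongr
      _ = 65 * (f * Real.log s * Real.log μ) / (δ * L) := by ring
      _ ≤ 65 * (δ ^ 2 / 10000 * L ^ 2) / (δ * L) := by gcongr
      _ = 65 / 10000 * δ * L := by field_simp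
  have hμd : μ ^ d ≤ N ^ (65 * δ / 10000) := by
    have h2 : (0 : ℝ) < μ ^ d := by positivity
    rw [← Real.log_le_log_iff h2 (by positivity), Real.log_pow, Real.log_rpow hN0, ← hL]
    linarith
  have hμN : μ ≤ N ^ (δ / 100) := by
    rw [← Real.log_le_log_iff hμ0 (by positivity), Real.log_rpow hN0, ← hL]
    have h2 : 1 * Real.log μ ≤ d * Real.log μ := by gcongr
    have h3 : 65 / 10000 * δ * L ≤ δ / 100 * L := by linarith
    linarith
  have hrμ : r ≤ μ := by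
    have h2 : r ^ 2 ≤ μ ^ 2 := by
      rw [hr2]
      have h3 : ν ≤ μ := by linarith
      exact h3.trans (le_self_pow₀ hμ1 (by norm_num))
    exact le_of_sq_le_sq h2 hμ0.le
  have h4N : 4 ≤ N ^ (δ / 200) := by
    rw [Real.rpow_def_of_pos hN0, ← hL]
    have h2 := Real.add_one_le_exp (L * (δ / 200))
    linarith
  -- the ratio
  obtain ⟨x, hx⟩ : ∃ x : ℝ, x = (k : ℝ) / (m + 1) := ⟨_, rfl⟩
  have hx0 : 0 ≤ x := by rw [hx]; positivity
  have hx1 : x ≤ N ^ (-(δ / 5)) := by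
    rw [hx, div_le_iff₀ (by positivity), Real.rpow_neg hN0.le, inv_mul_eq_div,
      le_div_iff₀ (by positivity)]
    rw [hm]
    have := (Nat.lt_floor_add_one (k * N ^ (δ / 5))).le
    push_cast
    linarith
  obtain ⟨y, hy⟩ : ∃ y : ℝ, y = N ^ (-(7 * δ / 40)) := ⟨_, rfl⟩
  have hy0 : 0 < y := by rw [hy]; positivity
  have hy1 : y ≤ 1 := by
    rw [hy]
    exact Real.rpow_le_one_of_one_le_of_nonpos hN1 (by linarith)
  have hbase : 4 * d * μ ^ d * x ≤ y := by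
    calc 4 * d * μ ^ d * x ≤ N ^ (δ / 200) * N ^ (δ / 100) * N ^ (65 * δ / 10000) *
          N ^ (-(δ / 5)) := by gcongr
      _ = N ^ (δ / 200 + δ / 100 + 65 * δ / 10000 + -(δ / 5)) := by
          rw [Real.rpow_add hN0, Real.rpow_add hN0, Real.rpow_add hN0]
      _ ≤ N ^ (-(7 * δ / 40)) := Real.rpow_le_rpow_of_exponent_le hN1 (by linarith)
      _ = y := hy.symm
  have hw : ∀ j : ℕ, 1 ≤ j → j ≤ d → wgtE μ x j ≤ y ^ j := by
    intro j hj1 hj
    refine (wgtE_le hμ1 hx0 hj1 hj).trans ?_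
    exact pow_le_pow_left₀ (by positivity) hbase j
  have hsum1 : ∑ j ∈ Icc (c + 1) d, wgtE μ x j ≤ d * y ^ (c + 1) := by
    calc ∑ j ∈ Icc (c + 1) d, wgtE μ x j ≤ ∑ j ∈ Icc (c + 1) d, y ^ (c + 1) := by
          refine sum_le_sum fun j hj => ?_
          rw [mem_Icc] at hj
          exact (hw j (by omega) hj.2).trans (pow_le_pow_of_le_one hy0.le hy1 hj.1)
      _ = ((Icc (c + 1) d).card : ℝ) * y ^ (c + 1) := by rw [sum_const, nsmul_eq_mul]
      _ ≤ d * y ^ (c + 1) := by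
          have : (Icc (c + 1) d).card ≤ d := by rw [Nat.card_Icc]; omega
          have h3 : ((Icc (c + 1) d).card : ℝ) ≤ d := by exact_mod_cast this
          gcongr
  have hsum2 : ∑ j ∈ Icc 1 c, wgtE μ x j ≤ d := by
    calc ∑ j ∈ Icc 1 c, wgtE μ x j ≤ ∑ j ∈ Icc 1 c, (1 : ℝ) := by
          refine sum_le_sum fun j hj => ?_
          rw [mem_Icc] at hj
          refine (hw j hj.1 (hj.2.trans hcd)).trans ?_
          exact pow_le_one₀ hy0.le hy1
      _ = ((Icc 1 c).card : ℝ) := by rw [sum_const, nsmul_eq_mul, mul_one]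
      _ ≤ d := by
          have : (Icc 1 c).card ≤ d := by rw [Nat.card_Icc]; omega
          exact_mod_cast this
  have hsy : (s : ℝ) * y ^ c ≤ N ^ (-7 : ℝ) := by
    have h2 : 0 < (s : ℝ) * y ^ c := by positivity
    rw [← Real.log_le_log_iff h2 (by positivity),
      Real.log_mul hs0.ne' (by positivity), Real.log_pow, hy, Real.log_rpow hN0,
      Real.log_rpow hN0, ← hL]
    have h3 : 2 * (Real.log s + 4 * L) ≤ c * (δ / 5 * L) := by
      rw [← div_le_iff₀ (by positivity)]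
      linarith
    linear_combination (7 / 8) * h3 + (3 / 4) * hls0.le
  have hqd : (q : ℝ) ≤ 4 * (d : ℝ) ^ 3 := by
    rw [hq]
    push_cast
    have h2 : (d : ℝ) ^ 2 + 1 ≤ 2 * d ^ 2 := by
      have h4 : (1 : ℝ) ≤ (d : ℝ) ^ 2 := one_le_pow₀ hd1
      linarith
    have h3 : (d : ℝ) + 1 ≤ 2 * d := by linarith
    calc ((d : ℝ) ^ 2 + 1) * (d + 1) ≤ (2 * (d : ℝ) ^ 2) * (2 * d) := by gcongr
      _ = 4 * (d : ℝ) ^ 3 := by ring
  have hW4 : (d : ℝ) ^ 4 ≤ N := by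
    calc (d : ℝ) ^ 4 ≤ (N ^ (δ / 100)) ^ 4 := by gcongr
      _ = N ^ (δ / 100 * 4) := by
          rw [← Real.rpow_natCast, ← Real.rpow_mul hN0.le]; norm_num
      _ ≤ N ^ (1 : ℝ) := Real.rpow_le_rpow_of_exponent_le hN1 (by linarith)
      _ = N := Real.rpow_one _
  -- the environment
  have hlog2 : (Nat.log 2 n : ℝ) ≤ 2 * L := by
    have h2 : (2 : ℝ) ^ Nat.log 2 n ≤ N := by
      rw [hN]
      exact_mod_cast Nat.pow_log_le_self 2 (by omega)
    have h3 := Real.log_le_log (by positivity) h2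
    rw [Real.log_pow, ← hL] at h3
    have h4 := Real.log_two_gt_d9
    have h5 : (0 : ℝ) ≤ Nat.log 2 n := Nat.cast_nonneg _
    have h6 : (Nat.log 2 n : ℝ) * (1 / 2) ≤ Nat.log 2 n * Real.log 2 :=
      mul_le_mul_of_nonneg_left (by linarith) h5
    linarith
  have hBL : (B : ℝ) ≤ 32 * L * d ^ 3 * D := by
    rw [hB]
    push_cast
    calc (q : ℝ) * (D + 2 * Nat.log 2 n + 3) ≤ 4 * d ^ 3 * (8 * L * D) := by
          have h2 : (D : ℝ) + 2 * Nat.log 2 n + 3 ≤ 8 * L * D := by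
            have h3 : (4 * L + 3) * 1 ≤ (4 * L + 3) * D := by gcongr
            have h4 : (1 + 3) * (D : ℝ) ≤ (4 * L) * D := by
              have : (1 + 3 : ℝ) ≤ 4 * L := by linarith
              gcongr
            linarith
          gcongr
      _ = _ := by ring
  obtain ⟨P, hP⟩ : ∃ P : ℝ, P = N ^ (δ / 5) := ⟨_, rfl⟩
  have hP1 : 1 ≤ P := by rw [hP]; exact Real.one_le_rpow hN1 (by linarith)
  have hP0 : 0 < P := by linarith
  have hmL : (m : ℝ) ≤ 2 * k * P := by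
    have h2 : ((⌊k * P⌋₊ : ℕ) : ℝ) ≤ k * P := Nat.floor_le (by positivity)
    have h3 : (1 : ℝ) * 1 ≤ k * P := by gcongr
    rw [hm, ← hP]
    push_cast
    linarith
  have hm1 : 1 ≤ m := by omega
  have hm1' : (1 : ℝ) ≤ m := by exact_mod_cast hm1
  have hdm : (d : ℝ) * m ≤ 2 * d * K * P := by
    calc (d : ℝ) * m ≤ d * (2 * k * P) := by gcongr
      _ ≤ d * (2 * K * P) := by gcongr
      _ = _ := by ring
  have hBdm : (B : ℝ) * (d * m) ≤ 64 * L * d ^ 4 * K * P := by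
    calc (B : ℝ) * (d * m) ≤ 32 * L * d ^ 3 * D * (d * (2 * k * P)) := by gcongr
      _ = 64 * L * d ^ 4 * (k * D) * P := by ring
      _ = 64 * L * d ^ 4 * K * P := by rw [hK]
  have hIx : (Fintype.card (Ix B d m) : ℝ) = B * (d * m) := by
    simp only [Fintype.card_prod, Fintype.card_fin]
    push_cast
    ring
  have hRt : (Fintype.card (Rt B d m) : ℝ) = B * (d * m) + d * (m + 1) := by
    have h2 : (Fintype.card (Rt B d m) : ℝ) = Fintype.card (Ix B d m) +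
        Fintype.card (Fin d × Fin (m + 1)) := by
      rw [← Nat.cast_add]
      congr 1
      exact Fintype.card_sum
    rw [h2, hIx]
    simp only [Fintype.card_prod, Fintype.card_fin]
    push_cast
    ring
  have hB1 : (1 : ℝ) ≤ B := by
    have h2 : 1 ≤ B := by
      rw [hB, hq]
      exact Nat.one_le_iff_ne_zero.2 (Nat.mul_ne_zero (Nat.mul_ne_zero (by omega) (by omega))
        (by omega))
    exact_mod_cast h2
  have hRt2 : (Fintype.card (Rt B d m) : ℝ) ≤ 192 * L * d ^ 4 * K * P := by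
    rw [hRt]
    have h3 : (d : ℝ) * m ≤ B * (d * m) := by
      have : 1 * ((d : ℝ) * m) ≤ B * (d * m) := by gcongr
      linarith
    have h4 : (d : ℝ) ≤ d * m := by
      calc (d : ℝ) = d * 1 := (mul_one _).symm
        _ ≤ d * m := by gcongr
    calc (B : ℝ) * (d * m) + d * (m + 1) = B * (d * m) + d * m + d := by ring
      _ ≤ 3 * (B * (d * m)) := by linarith
      _ ≤ 3 * (64 * L * d ^ 4 * K * P) := by gcongr
      _ = 192 * L * d ^ 4 * K * P := by ring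
  have hPP : P ^ 2 = N ^ (2 * δ / 5) := by
    rw [hP, sq, ← Real.rpow_add hN0]
    congr 1
    ring
  -- the power of the logarithm
  have hLP : 36864 * L ^ 2 ≤ N ^ (δ / 6) := by
    have h2 : L ^ 2 ≤ L ^ 10 := pow_le_pow_right₀ hL1 (by norm_num)
    have h22 : (1 : ℝ) ≤ L ^ 10 := one_le_pow₀ hL1
    have h3 : 1700 ≤ N ^ (δ / 12) := by linarith
    calc 36864 * L ^ 2 ≤ 1700 * (1700 * L ^ 10) := by linarith
      _ ≤ N ^ (δ / 12) * N ^ (δ / 12) := by gcongr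
      _ = N ^ (δ / 6) := by
          rw [← Real.rpow_add hN0]
          congr 1
          ring
  have hd9 : (d : ℝ) ^ 9 ≤ N ^ (9 * δ / 100) := by
    calc (d : ℝ) ^ 9 ≤ (N ^ (δ / 100)) ^ 9 := by gcongr
      _ = N ^ (9 * δ / 100) := by
          rw [← Real.rpow_natCast, ← Real.rpow_mul hN0.le]
          congr 1
          push_cast
          ring
  have hd89 : (d : ℝ) ^ 8 ≤ (d : ℝ) ^ 9 := pow_le_pow_right₀ hd1 (by norm_num)
  have hd99 : (1 : ℝ) ≤ (d : ℝ) ^ 9 := one_le_pow₀ hd1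
  -- the error
  have hfirst : (((s + 1 : ℕ) : ℝ)) * (q * ∑ j ∈ Icc (c + 1) d, wgtE μ x j) ≤
      N ^ (-2 : ℝ) := by
    have h2 : (((s + 1 : ℕ) : ℝ)) ≤ 2 * s := by
      have h3 : 1 ≤ s := by omega
      exact_mod_cast (by omega : s + 1 ≤ 2 * s)
    have h7 : (8 : ℝ) * N ≤ N ^ (5 : ℝ) := by
      calc (8 : ℝ) * N ≤ N * N := by gcongr; linarith
        _ = N ^ (2 : ℝ) := by rw [← sq, ← Real.rpow_natCast]; norm_num
        _ ≤ N ^ (5 : ℝ) := Real.rpow_le_rpow_of_exponent_le hN1 (by norm_num)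
    calc (((s + 1 : ℕ) : ℝ)) * (q * ∑ j ∈ Icc (c + 1) d, wgtE μ x j)
        ≤ (2 * s) * ((4 * d ^ 3) * (d * y ^ (c + 1))) := by
          have h6 : 0 ≤ ∑ j ∈ Icc (c + 1) d, wgtE μ x j :=
            sum_nonneg fun j _ => by unfold wgtE; positivity
          gcongr
      _ = 8 * (d : ℝ) ^ 4 * (s * y ^ c) * y := by ring
      _ ≤ 8 * N * N ^ (-7 : ℝ) * 1 := by gcongr
      _ ≤ N ^ (5 : ℝ) * N ^ (-7 : ℝ) * 1 := by gcongr
      _ = N ^ (-2 : ℝ) := by
          rw [mul_one, ← Real.rpow_add hN0]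
          norm_num
  have hsecond : ((d * m + c : ℕ) : ℝ) * (2 * r * (Fintype.card (Rt B d m) : ℕ) / N) *
        (q * ∑ j ∈ Icc 1 c, wgtE μ x j) ≤ 6144 * L ^ 2 * d ^ 9 * r * K ^ 2 * P ^ 2 / N := by
    have h5 : ((d * m + c : ℕ) : ℝ) ≤ 4 * d * K * P := by
      push_cast
      have h6 : (c : ℝ) ≤ d := by exact_mod_cast hcd
      have h7 : (d : ℝ) * 1 ≤ d * m := by gcongr
      linarith
    have h6 : 0 ≤ ∑ j ∈ Icc 1 c, wgtE μ x j := sum_nonneg fun j _ => by unfold wgtE; positivity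
    calc ((d * m + c : ℕ) : ℝ) * (2 * r * (Fintype.card (Rt B d m) : ℕ) / N) *
          (q * ∑ j ∈ Icc 1 c, wgtE μ x j)
          ≤ (4 * d * K * P) * (2 * r * (192 * L * d ^ 4 * K * P) / N) * (4 * d ^ 3 * d) := by
            gcongr
        _ = 6144 * (L * 1) * d ^ 9 * r * K ^ 2 * P ^ 2 / N := by ring
        _ ≤ 6144 * (L * L) * d ^ 9 * r * K ^ 2 * P ^ 2 / N := by gcongr
        _ = 6144 * L ^ 2 * d ^ 9 * r * K ^ 2 * P ^ 2 / N := by ring
  have hthird : (Fintype.card (Ix B d m) : ℝ) * (2 * r * (Fintype.card (Rt B d m) : ℕ) / N) ≤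
      24576 * L ^ 2 * d ^ 9 * r * K ^ 2 * P ^ 2 / N := by
    calc (Fintype.card (Ix B d m) : ℝ) * (2 * r * (Fintype.card (Rt B d m) : ℕ) / N)
        ≤ (64 * L * d ^ 4 * K * P) * (2 * r * (192 * L * d ^ 4 * K * P) / N) := by
          rw [hIx]
          gcongr
      _ = 24576 * L ^ 2 * d ^ 8 * r * K ^ 2 * P ^ 2 / N := by ring
      _ ≤ _ := by gcongr
  refine ⟨c, m, q, B, d, hc3, hd, hm1, hq.symm.le, hB.symm.le, ?_, ?_⟩
  · calc ((Fintype.card (Rt B d m) : ℝ)) ^ 2 * ν ≤ (192 * L * d ^ 4 * K * P) ^ 2 * ν := by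
            gcongr
      _ = (36864 * L ^ 2) * d ^ 8 * P ^ 2 * (r * K ^ 2) * r := by rw [← hr2]; ring
      _ ≤ N ^ (δ / 6) * N ^ (9 * δ / 100) * N ^ (2 * δ / 5) * N ^ (1 - δ) * N ^ (δ / 100) := by
            have h2 : (d : ℝ) ^ 8 ≤ N ^ (9 * δ / 100) := hd89.trans hd9
            have h3 : r * K ^ 2 ≤ N ^ (1 - δ) := hkD.le
            have h4 : r ≤ N ^ (δ / 100) := hrμ.trans hμN
            rw [hPP]
            gcongr
      _ = N ^ (δ / 6 + 9 * δ / 100 + 2 * δ / 5 + (1 - δ) + δ / 100) := by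
            rw [Real.rpow_add hN0, Real.rpow_add hN0, Real.rpow_add hN0, Real.rpow_add hN0]
      _ ≤ N ^ (1 : ℝ) := Real.rpow_le_rpow_of_exponent_le hN1 (by linarith)
      _ = N := Real.rpow_one _
  · rw [← hx]
    unfold errE
    have h10 : 30720 * L ^ 2 * d ^ 9 * r * K ^ 2 * P ^ 2 / N ≤ r * (K ^ 2 * N ^ (δ - 1)) := by
      calc 30720 * L ^ 2 * d ^ 9 * r * K ^ 2 * P ^ 2 / N
          ≤ 36864 * L ^ 2 * d ^ 9 * r * K ^ 2 * P ^ 2 / N := by gcongr; norm_num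
        _ = r * K ^ 2 * ((36864 * L ^ 2) * d ^ 9 * P ^ 2 / N) := by ring
        _ ≤ r * K ^ 2 * (N ^ (δ / 6) * N ^ (9 * δ / 100) * N ^ (2 * δ / 5) / N) := by
            rw [hPP]
            gcongr
        _ ≤ r * K ^ 2 * N ^ (δ - 1) := by
            have h11 : N ^ (δ / 6) * N ^ (9 * δ / 100) * N ^ (2 * δ / 5) / N ≤ N ^ (δ - 1) := by
              rw [div_le_iff₀ hN0]
              calc N ^ (δ / 6) * N ^ (9 * δ / 100) * N ^ (2 * δ / 5)
                  = N ^ (δ / 6 + 9 * δ / 100 + 2 * δ / 5) := by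
                    rw [Real.rpow_add hN0, Real.rpow_add hN0]
                _ ≤ N ^ (δ - 1 + 1) := Real.rpow_le_rpow_of_exponent_le hN1 (by linarith)
                _ = N ^ (δ - 1) * N := by
                    rw [Real.rpow_add hN0, Real.rpow_one]
            gcongr
        _ = r * (K ^ 2 * N ^ (δ - 1)) := by ring
    have h12 : 30720 * L ^ 2 * d ^ 9 * r * K ^ 2 * P ^ 2 / N =
        6144 * L ^ 2 * d ^ 9 * r * K ^ 2 * P ^ 2 / N +
          24576 * L ^ 2 * d ^ 9 * r * K ^ 2 * P ^ 2 / N := by ring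
    linarith

end Pool.Agent.T9h65.QE
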