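import Pool.Agent.T9h65.QE.Star
import Pool.Agent.T9h34.QE.Spec

/-!
# Piece (H1) of project QE
-/

set_option autoImplicit false

namespace Pool.Agent.T9h65.QE

open Finset
open Pool.Agent.PC34 (prob)
open Pool.Agent.T9h34.Q
open Pool.Agent.T9h34.QE (StStarE nu dst)
open Pool.Agent.T9h16.QL
open Pool.Agent.T9h65.QL

/-- (H1) -/
theorem stStarE : StStarE := by
  intro V ρ _ _ _ _ _ L a ha haL hR Θ
  have ha0 : (0 : ℝ) < a := by exact_mod_cast ha
  have hμ : (1 : ℝ) ≤ (L : ℝ) / a := by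
    rw [le_div_iff₀ ha0, one_mul]; exact_mod_cast haL
  have hRμ : (Fintype.card ρ : ℝ) ^ 2 * ((L : ℝ) / a - 1) ≤ Fintype.card V := hR
  have hn0 : (0 : ℝ) < Fintype.card V := by exact_mod_cast Fintype.card_pos
  have h1 := prob_diff_sq (E := Sym2 V) (P := Option ρ → V) ha haL star Θ
  have h2 := sum_pairsE (V := V) (ρ := ρ) hμ hRμ
  have hP : (0 : ℝ) < Fintype.card (Option ρ → V) := by exact_mod_cast Fintype.card_pos
  have hs : √((L : ℝ) / a - 1) ^ 2 = (L : ℝ) / a - 1 := Real.sq_sqrt (by linarith)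
  have h3 : (prob (fun x : (Sym2 V → Fin L) × (Option ρ → V) => Θ (low x.1 a ∪ star x.2)) -
      prob (fun lab : Sym2 V → Fin L => Θ (low lab a))) ^ 2 ≤
      (2 * √((L : ℝ) / a - 1) * (Fintype.card ρ : ℝ) / Fintype.card V) ^ 2 := by
    refine h1.trans ?_
    rw [div_le_iff₀ (by positivity)]
    refine h2.trans (mul_le_mul_of_nonneg_right ?_ (by positivity))
    rw [div_pow, mul_pow, mul_pow, hs]
    refine div_le_div_of_nonneg_right ?_ (by positivity)
    have h4 : 0 ≤ ((L : ℝ) / a - 1) * (Fintype.card ρ : ℝ) ^ 2 :=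
      mul_nonneg (by linarith) (by positivity)
    nlinarith
  have h4 := (abs_le.1 (abs_le_of_sq_le_sq h3 (by positivity))).2
  have h5 : dst L a (Fintype.card V) (Fintype.card ρ) =
      2 * √((L : ℝ) / a - 1) * (Fintype.card ρ : ℝ) / Fintype.card V := rfl
  rw [h5]
  linarith

end Pool.Agent.T9h65.QE
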