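import Pool.Agent.T9h65.QL.StarL

/-!
# One random star in a random graph, sharp at every density

`chi^2 <= 3 (1/p - 1) R^2 / n^2` (with `R^2 (1/p - 1) <= n`), so the distance of one star is at most
`2 sqrt (1/p - 1) R / n`. (Variant of `Pool.Agent.T9h65.QL.StarL`.)
-/

set_option autoImplicit false
set_option linter.unusedSectionVars false

namespace Pool.Agent.T9h65.QE

open Finset
open Pool.Agent.PC34 (prob)
open Pool.Agent.T9h34.Q
open Pool.Agent.T9h16.QL
open Pool.Agent.T9h68.QC (pkt sum_pkt star_inter_self sum_mem_image pow_bd)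
open Pool.Agent.T9h65.QL

section stars

variable {V ρ : Type} [Fintype V] [DecidableEq V] [Fintype ρ] [DecidableEq ρ]

theorem sum_pairsE [Nonempty V] {μ : ℝ} (hμ : 1 ≤ μ)
    (hR : (Fintype.card ρ : ℝ) ^ 2 * (μ - 1) ≤ Fintype.card V) :
    (∑ p : Option ρ → V, ∑ p' : Option ρ → V, μ ^ (star p ∩ star p').card) -
      (Fintype.card (Option ρ → V) : ℝ) ^ 2 ≤
    (3 * (μ - 1) * (Fintype.card ρ : ℝ) ^ 2 / (Fintype.card V) ^ 2) *
      (Fintype.card (Option ρ → V) : ℝ) ^ 2 := by
  have hμ0 : 0 < μ := by linarith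
  have hμ1 : 0 ≤ μ - 1 := by linarith
  set n : ℝ := (Fintype.card V : ℝ) with hn
  set R : ℕ := Fintype.card ρ with hRdef
  have hn0 : 0 < n := by rw [hn]; exact_mod_cast Fintype.card_pos
  have hcard : (Fintype.card (Option ρ → V) : ℝ) = n * n ^ R := by
    rw [Fintype.card_fun, Fintype.card_option]
    push_cast
    rw [pow_succ]
    ring
  have h1 : (∑ p : Option ρ → V, ∑ p' : Option ρ → V, μ ^ (star p ∩ star p').card) -
      (Fintype.card (Option ρ → V) : ℝ) ^ 2 =
      ∑ y : V, ∑ x : ρ → V, ∑ y' : V, ∑ x' : ρ → V,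
        (μ ^ (star (pkt y x) ∩ star (pkt y' x')).card - 1) := by
    have h2 : (Fintype.card (Option ρ → V) : ℝ) ^ 2 =
        ∑ y : V, ∑ x : ρ → V, ∑ y' : V, ∑ x' : ρ → V, (1 : ℝ) := by
      rw [hcard]
      simp only [sum_const, card_univ, nsmul_eq_mul, mul_one, Fintype.card_fun]
      push_cast
      ring
    rw [h2, sum_pkt]
    have h3 : ∀ (y : V) (x : ρ → V),
        ∑ p' : Option ρ → V, μ ^ (Pool.Agent.T9h34.Q.star (pkt y x) ∩
          Pool.Agent.T9h34.Q.star p').card =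
        ∑ y' : V, ∑ x' : ρ → V, μ ^ (Pool.Agent.T9h34.Q.star (pkt y x) ∩
          Pool.Agent.T9h34.Q.star (pkt y' x')).card := fun y x => sum_pkt _
    simp only [h3, sum_sub_distrib]
  have h2 : ∀ (y : V) (x : ρ → V) (y' : V) (x' : ρ → V),
      μ ^ (star (pkt y x) ∩ star (pkt y' x')).card - 1 ≤
      (if y' = y then μ ^ (univ.filter (fun r => x r ∈ univ.image x')).card - 1 else 0) +
      (μ - 1) * ((if y' ∈ univ.image x then 1 else 0) * (if y ∈ univ.image x' then 1 else 0)) := by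
    intro y x y' x'
    have h0 : (0 : ℝ) ≤ (if y' ∈ univ.image x then 1 else 0) *
        (if y ∈ univ.image x' then 1 else 0) := by
      split_ifs <;> norm_num
    have h0' := mul_nonneg hμ1 h0
    by_cases hy : y' = y
    · subst hy
      rw [if_pos rfl]
      have h3 := star_inter_self y' x x'
      have h4 : μ ^ (star (pkt y' x) ∩ star (pkt y' x')).card ≤
          μ ^ (univ.filter (fun r => x r ∈ univ.image x')).card :=
        pow_le_pow_right₀ hμ h3
      linarith
    · rw [if_neg hy, zero_add]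
      exact star_inter_neL hμ (Ne.symm hy) x x'
  have h3 : ∑ y : V, ∑ x : ρ → V, ∑ y' : V, ∑ x' : ρ → V,
      (if y' = y then μ ^ (univ.filter (fun r => x r ∈ univ.image x')).card - 1 else 0) ≤
      n * (n ^ R * ((n + (μ - 1) * R) ^ R - n ^ R)) := by
    have h4 : ∀ y : V, ∑ x : ρ → V, ∑ y' : V, ∑ x' : ρ → V,
        (if y' = y then μ ^ (univ.filter (fun r => x r ∈ univ.image x')).card - 1 else 0) =
        ∑ x' : ρ → V, ∑ x : ρ → V,
          (μ ^ (univ.filter (fun r => x r ∈ univ.image x')).card - 1) := by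
      intro y
      rw [sum_comm (γ := ρ → V) (s := (univ : Finset (ρ → V))) (t := (univ : Finset (ρ → V)))]
      refine sum_congr rfl fun x _ => ?_
      rw [sum_comm]
      refine sum_congr rfl fun x' _ => ?_
      rw [sum_ite_eq' univ y]
      simp
    simp only [h4]
    rw [sum_const, card_univ, nsmul_eq_mul]
    refine mul_le_mul_of_nonneg_left ?_ hn0.le
    have h5 : ∀ x' : ρ → V, ∑ x : ρ → V,
        (μ ^ (univ.filter (fun r => x r ∈ univ.image x')).card - 1) ≤
        (n + (μ - 1) * R) ^ R - n ^ R := by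
      intro x'
      rw [sum_sub_distrib, sum_mu_pow, sum_const, card_univ, Fintype.card_fun]
      simp only [nsmul_eq_mul, mul_one]
      push_cast
      have h6 : ((univ.image x').card : ℝ) ≤ R := by
        have : (univ.image x').card ≤ R := card_image_le
        exact_mod_cast this
      have h7 : (n + (μ - 1) * ((univ.image x').card : ℝ)) ^ R ≤ (n + (μ - 1) * R) ^ R :=
        pow_le_pow_left₀ (by positivity) (by
          have := mul_le_mul_of_nonneg_left h6 hμ1
          linarith) R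
      linarith
    refine (sum_le_sum fun x' _ => h5 x').trans ?_
    rw [sum_const, card_univ, Fintype.card_fun, nsmul_eq_mul]
    push_cast
    exact le_refl _
  have h4 : ∑ y : V, ∑ x : ρ → V, ∑ y' : V, ∑ x' : ρ → V,
      ((μ - 1) * ((if y' ∈ univ.image x then (1 : ℝ) else 0) *
        (if y ∈ univ.image x' then 1 else 0))) ≤
      (μ - 1) * ((R * n ^ R) * (R * n ^ R)) := by
    simp only [← mul_sum]
    refine mul_le_mul_of_nonneg_left ?_ hμ1
    have h5 : ∑ y : V, ∑ x : ρ → V, ∑ y' : V,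
        ((if y' ∈ univ.image x then (1 : ℝ) else 0) *
          ∑ x' : ρ → V, (if y ∈ univ.image x' then (1 : ℝ) else 0)) =
        (∑ y' : V, ∑ x : ρ → V, (if y' ∈ univ.image x then (1 : ℝ) else 0)) *
        (∑ y : V, ∑ x' : ρ → V, (if y ∈ univ.image x' then (1 : ℝ) else 0)) := by
      have h6 : ∀ y : V, ∑ x : ρ → V, ∑ y' : V,
          ((if y' ∈ univ.image x then (1 : ℝ) else 0) *
            ∑ x' : ρ → V, (if y ∈ univ.image x' then (1 : ℝ) else 0)) =
          (∑ y' : V, ∑ x : ρ → V, (if y' ∈ univ.image x then (1 : ℝ) else 0)) *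
          ∑ x' : ρ → V, (if y ∈ univ.image x' then (1 : ℝ) else 0) := by
        intro y
        simp only [← sum_mul]
        rw [sum_comm]
      simp only [h6]
      rw [← mul_sum]
    rw [h5]
    have h6 := sum_mem_image (V := V) (ρ := ρ)
    have h7 : (0 : ℝ) ≤ ∑ y' : V, ∑ x : ρ → V, (if y' ∈ univ.image x then (1 : ℝ) else 0) :=
      sum_nonneg fun _ _ => sum_nonneg fun _ _ => by split_ifs <;> norm_num
    exact mul_le_mul h6 h6 h7 (by positivity)
  have h5 : (n + (μ - 1) * R) ^ R ≤ n ^ R * (1 + 2 * ((μ - 1) * R ^ 2) / n) := by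
    have hx : (0 : ℝ) ≤ (μ - 1) * R / n := by positivity
    have h6 : (R : ℝ) * ((μ - 1) * R / n) ≤ 1 := by
      rw [← mul_div_assoc, div_le_one hn0]
      have h66 : (R : ℝ) * ((μ - 1) * R) = (R : ℝ) ^ 2 * (μ - 1) := by ring
      rw [h66]; exact hR
    have h7 := pow_bd hx R h6
    have h8 : (n + (μ - 1) * R) ^ R = n ^ R * (1 + (μ - 1) * R / n) ^ R := by
      rw [← mul_pow]
      congr 1
      field_simp
    rw [h8]
    refine mul_le_mul_of_nonneg_left (h7.trans ?_) (by positivity)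
    have h9 : (R : ℝ) * ((μ - 1) * R / n) = (μ - 1) * R ^ 2 / n := by ring
    have h10 : 0 ≤ (μ - 1) * (R : ℝ) ^ 2 / n := by positivity
    rw [h9] at h6 ⊢
    have h11 : ((μ - 1) * R ^ 2 / n : ℝ) ^ 2 ≤ (μ - 1) * R ^ 2 / n := by nlinarith
    have h12 : (2 : ℝ) * ((μ - 1) * R ^ 2) / n = 2 * ((μ - 1) * R ^ 2 / n) := by ring
    rw [h12]
    linarith
  rw [h1]
  refine (sum_le_sum fun y _ => sum_le_sum fun x _ => sum_le_sum fun y' _ =>
    sum_le_sum fun x' _ => h2 y x y' x').trans ?_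
  simp only [sum_add_distrib]
  refine (add_le_add h3 h4).trans ?_
  rw [hcard]
  have h6 : n * (n ^ R * ((n + (μ - 1) * R) ^ R - n ^ R)) ≤
      n * (n ^ R * (n ^ R * (2 * ((μ - 1) * R ^ 2) / n))) := by
    refine mul_le_mul_of_nonneg_left (mul_le_mul_of_nonneg_left ?_ (by positivity)) hn0.le
    have : n ^ R * (1 + 2 * ((μ - 1) * R ^ 2) / n) =
        n ^ R + n ^ R * (2 * ((μ - 1) * R ^ 2) / n) := by ring
    linarith
  have h7 : n * (n ^ R * (n ^ R * (2 * ((μ - 1) * R ^ 2) / n))) =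
      2 * ((μ - 1) * R ^ 2) * (n ^ R) ^ 2 := by
    field_simp
  have h8 : (3 * (μ - 1) * (R : ℝ) ^ 2 / n ^ 2) * (n * n ^ R) ^ 2 =
      3 * (μ - 1) * R ^ 2 * (n ^ R) ^ 2 := by
    field_simp
  rw [h8]
  have h9 : (μ - 1) * ((R * n ^ R) * (R * n ^ R)) = (μ - 1) * ((R : ℝ) ^ 2 * (n ^ R) ^ 2) := by ring
  rw [h9]
  rw [h7] at h6
  linarith

end stars

/-- one star at every density -/
theorem starE (V ρ : Type) [Fintype V] [DecidableEq V] [Nonempty V] [Fintype ρ]
    [DecidableEq ρ] (L a : ℕ) (ha : 1 ≤ a) (haL : a ≤ L)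
    (hR : (Fintype.card ρ) ^ 2 * (L - a) ≤ a * Fintype.card V) (Θ : Finset (Sym2 V) → Prop) :
    |prob (fun x : (Sym2 V → Fin L) × (Option ρ → V) => Θ (low x.1 a ∪ star x.2)) -
      prob (fun lab : Sym2 V → Fin L => Θ (low lab a))| ≤
      2 * √((L : ℝ) / a - 1) * (Fintype.card ρ : ℝ) / Fintype.card V := by
  have ha0 : (0 : ℝ) < a := by exact_mod_cast ha
  have hμ : (1 : ℝ) ≤ (L : ℝ) / a := by
    rw [le_div_iff₀ ha0, one_mul]; exact_mod_cast haL
  have hRμ : (Fintype.card ρ : ℝ) ^ 2 * ((L : ℝ) / a - 1) ≤ Fintype.card V := by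
    have h1 : (L : ℝ) / a - 1 = ((L : ℝ) - a) / a := by field_simp
    rw [h1, ← mul_div_assoc, div_le_iff₀ ha0]
    have : (((Fintype.card ρ) ^ 2 * (L - a) : ℕ) : ℝ) ≤ ((a * Fintype.card V : ℕ) : ℝ) := by
      exact_mod_cast hR
    rw [Nat.cast_mul, Nat.cast_sub haL] at this
    push_cast at this
    linarith
  have hn0 : (0 : ℝ) < Fintype.card V := by exact_mod_cast Fintype.card_pos
  have h1 := prob_diff_sq (E := Sym2 V) (P := Option ρ → V) ha haL star Θ
  have h2 := sum_pairsE (V := V) (ρ := ρ) hμ hRμ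
  have hP : (0 : ℝ) < Fintype.card (Option ρ → V) := by exact_mod_cast Fintype.card_pos
  have hs : √((L : ℝ) / a - 1) ^ 2 = (L : ℝ) / a - 1 := Real.sq_sqrt (by linarith)
  have h3 : (prob (fun x : (Sym2 V → Fin L) × (Option ρ → V) => Θ (low x.1 a ∪ star x.2)) -
      prob (fun lab : Sym2 V → Fin L => Θ (low lab a))) ^ 2 ≤
      (2 * √((L : ℝ) / a - 1) * (Fintype.card ρ : ℝ) / Fintype.card V) ^ 2 := by
    refine h1.trans ?_
    rw [div_le_iff₀ (by positivity)]
    refine h2.trans (mul_le_mul_of_nonneg_right ?_ (by positivity))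
    rw [div_pow, mul_pow, mul_pow, hs]
    refine div_le_div_of_nonneg_right ?_ (by positivity)
    have h4 : 0 ≤ ((L : ℝ) / a - 1) * (Fintype.card ρ : ℝ) ^ 2 :=
      mul_nonneg (by linarith) (by positivity)
    nlinarith
  exact abs_le_of_sq_le_sq h3 (by positivity)

end Pool.Agent.T9h65.QE
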